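import Pool.Agent.MQG.StmtsA

set_option autoImplicit false

/-!
# `Wt` commutes with `C V_t C ⊗ V_t`; `C Wt C` is the operator `W^`
-/

namespace Pool.Agent.MQG.H21

open scoped InnerProductSpace InnerProduct Topology ComplexConjugate
open Complex Filter

theorem v_unitary {ι : Type} {V : ℝ → Op ι} (hV : IsGroup V) (t : ℝ) : V t ∈ unitary (Op ι) := by
  rw [Unitary.mem_iff]
  refine ⟨?_, ?_⟩
  · rw [hV.star_eq, hV.neg_mul]
  · rw [hV.star_eq, hV.mul_neg]

theorem inner_unitary {α : Type} {T : Op α} (hT : T ∈ unitary (Op α)) (x y : L2 α) :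
    ⟪T x, T y⟫_ℂ = ⟪x, y⟫_ℂ := by
  rw [← ContinuousLinearMap.adjoint_inner_right, ← ContinuousLinearMap.star_eq_adjoint,
    ← ContinuousLinearMap.mul_apply, (Unitary.mem_iff.1 hT).1, ContinuousLinearMap.one_apply]

theorem com_inner {ι : Type} (M : MU ι) (t : ℝ) (x z : L2 ι) (f g : ℂ → L2 ι)
    (hf : Traj M.V f) (hg : Traj M.V g) :
    ⟪tn (star z) (f (-(I / 2))), M.Wt (tn (star x) (g (I / 2)))⟫_ℂ =
      ⟪tens (cj (M.V t)) (M.V t) (tn (star z) (f (-(I / 2)))),
        M.Wt (tens (cj (M.V t)) (M.V t) (tn (star x) (g (I / 2))))⟫_ℂ := by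
  have hV := M.V_group
  have h1 := M.manageable (M.V t x) (M.V t z) _ _ (hf.shift hV t) (hg.shift hV t)
  have h2 : ∀ w : ℂ, f (w + t) = M.V t (f w) := fun w => by
    rw [add_comm, hf.shift_real hV]
  have h3 : ∀ w : ℂ, g (w + t) = M.V t (g w) := fun w => by
    rw [add_comm, hg.shift_real hV]
  simp only [h2, h3] at h1
  rw [tens_tn, tens_tn, cj_apply, cj_apply, star_star, star_star, ← h1, ← tens_tn, ← tens_tn,
    ← ContinuousLinearMap.mul_apply, M.inv t, ContinuousLinearMap.mul_apply,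
    inner_unitary (tens_unitary (v_unitary hV t) (v_unitary hV t)), M.manageable x z f g hf hg]

theorem com : ComStmt := by
  intro ι M t
  have hV := M.V_group
  have hT : tens (cj (M.V t)) (M.V t) ∈ unitary (Op (ι × ι)) :=
    tens_unitary (cj_unitary (v_unitary hV t)) (v_unitary hV t)
  have h1 : M.Wt = star (tens (cj (M.V t)) (M.V t)) * (M.Wt * tens (cj (M.V t)) (M.V t)) := by
    refine Total.ext_op
      (Total.tn (total_star (total_univ (E := L2 ι))) (total_traj hV (I / 2)))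
      (Total.tn (total_star (total_univ (E := L2 ι))) (total_traj hV (-(I / 2)))) ?_
    rintro _ ⟨_, ⟨z, _, rfl⟩, _, ⟨f, hf, rfl⟩, rfl⟩ _ ⟨_, ⟨x, _, rfl⟩, _, ⟨g, hg, rfl⟩, rfl⟩
    rw [com_inner M t x z f g hf hg, ContinuousLinearMap.mul_apply,
      ContinuousLinearMap.star_eq_adjoint, ContinuousLinearMap.adjoint_inner_right,
      ContinuousLinearMap.mul_apply]
  have h2 : M.Wt * tens (cj (M.V t)) (M.V t) = tens (cj (M.V t)) (M.V t) * M.Wt := by
    have h3 := congrArg (fun S => tens (cj (M.V t)) (M.V t) * S) h1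
    simp only [← mul_assoc] at h3
    rw [(Unitary.mem_iff.1 hT).2, one_mul] at h3
    exact h3.symm
  refine ⟨h2, ?_⟩
  have h4 := congrArg cj h2
  rw [cj_mul, cj_mul, cj_tens, cj_cj] at h4
  exact h4

theorem haw : HawStmt := by
  intro ι M x z f g hf hg
  have hV := M.V_group
  have h1 := M.manageable z x _ _ (hf.shift hV (I / 2)) (hg.shift hV (-(I / 2)))
  simp only [zero_add, neg_add_cancel, add_neg_cancel] at h1
  rw [inner_cj, star_tn, star_tn, star_star, star_star, ← inner_conj_symm, ← h1,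
    inner_conj_symm, ContinuousLinearMap.star_eq_adjoint, ContinuousLinearMap.adjoint_inner_right]

end Pool.Agent.MQG.H21
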