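import Pool.Agent.MQG.StmtsH

set_option autoImplicit false

/-!
# Squad MQG, row HFT: the means and the analytic extension
-/

namespace Pool.Agent.MQG.H21

open scoped InnerProductSpace InnerProduct Topology ComplexConjugate
open Complex Filter MeasureTheory

variable {ι : Type}

/-- the matrix coefficient of the orbit of an operator -/
noncomputable def phi (V : ℝ → Op ι) (a : Op ι) (u y : L2 ι) (t : ℝ) : ℂ :=
  ⟪V (-t) u, a (V (-t) y)⟫_ℂ

theorem phi_cont {V : ℝ → Op ι} (hV : IsGroup V) (a : Op ι) (u y : L2 ι) :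
    Continuous (phi V a u y) :=
  ((hV.cont u).comp continuous_neg).inner (a.continuous.comp ((hV.cont y).comp continuous_neg))

theorem phi_bound {V : ℝ → Op ι} (hV : IsGroup V) (a : Op ι) (u y : L2 ι) (t : ℝ) :
    ‖phi V a u y t‖ ≤ ‖u‖ * (‖a‖ * ‖y‖) := by
  refine (norm_inner_le_norm _ _).trans ?_
  rw [hV.norm_apply]
  refine mul_le_mul_of_nonneg_left ((a.le_opNorm _).trans ?_) (norm_nonneg _)
  rw [hV.norm_apply]

theorem phi_shift {V : ℝ → Op ι} (hV : IsGroup V) (a : Op ι) (u y : L2 ι) (s t : ℝ) :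
    phi V a u y (t + s) = phi V a (V (-s) u) (V (-s) y) t := by
  unfold phi
  rw [neg_add, hV.apply_add, hV.apply_add]

/-- the mean as a form -/
noncomputable def mn (V : ℝ → Op ι) (a : Op ι) (u y : L2 ι) (z : ℂ) : ℂ :=
  ∫ t : ℝ, gk 0 z t • phi V a u y t

theorem mn_diff (hge : HgeStmt) {V : ℝ → Op ι} (hV : IsGroup V) (a : Op ι) (u y : L2 ι) :
    Differentiable ℂ (mn V a u y) :=
  (hge ℂ 0 _ _ (phi_cont hV a u y) (phi_bound hV a u y)).1

theorem mn_shift (hge : HgeStmt) {V : ℝ → Op ι} (hV : IsGroup V) (a : Op ι) (u y : L2 ι) (s : ℝ)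
    (z : ℂ) : mn V a u y (z + s) = mn V a (V (-s) u) (V (-s) y) z := by
  refine ((hge ℂ 0 _ _ (phi_cont hV a u y) (phi_bound hV a u y)).2.1 s z).trans ?_
  simp only [phi_shift hV]
  rfl

theorem hft (hge : HgeStmt) (hmx : HmxStmt) : HftStmt := by
  intro ι V hV a a' A A' h1 h2 h0
  have hA : ∀ u y, ⟪u, A y⟫_ℂ = mn V a u y 0 := h0
  -- step 1
  obtain ⟨B, hB, -⟩ := hmx ι V hV 0 a'
  have hB' : ∀ u y, ⟪u, B y⟫_ℂ = mn V a' u y 0 := hB
  have hBA : B = A' := by
    refine Total.ext_op (total_traj hV 0) (total_traj hV 0) ?_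
    rintro _ ⟨f, hf, rfl⟩ _ ⟨g, hg, rfl⟩
    rw [hB', h2 f g hf hg, hA]
    unfold mn
    refine integral_congr_ae (Eventually.of_forall fun t => ?_)
    have h3 := h1 _ _ (hf.shift hV ((-t : ℝ) : ℂ)) (hg.shift hV ((-t : ℝ) : ℂ))
    simp only [add_comm _ (((-t : ℝ) : ℂ)), hf.shift_real hV, hg.shift_real hV] at h3
    change gk 0 0 t • ⟪V (-t) (f 0), a' (V (-t) (g 0))⟫_ℂ =
      gk 0 0 t • ⟪V (-t) (f (I / 4)), a (V (-t) (g (-(I / 4))))⟫_ℂ
    rw [h3]
  -- step 2
  obtain ⟨F, hF, -⟩ := hmx ι V hV (I / 4) a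
  have hF' : ∀ u y, ⟪u, F y⟫_ℂ = mn V a u y (I / 4) := hF
  have hFA : F = A' := by
    refine Total.ext_op (total_traj hV 0) (total_traj hV 0) ?_
    rintro _ ⟨g, hg, rfl⟩ _ ⟨f, hf, rfl⟩
    rw [hF', h2 g f hg hf]
    have hd : Differentiable ℂ fun z : ℂ => ⟪(fun w => g (-w)) (conj z), A (f (-z))⟫_ℂ :=
      inner_differentiable (hg.1.comp differentiable_neg)
        (A.differentiable.comp (hf.1.comp differentiable_neg))
    have he := entire_ext (mn_diff hge hV a (g 0) (f 0)) hd (fun s => by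
      have h3 := mn_shift hge hV a (g 0) (f 0) s 0
      rw [zero_add] at h3
      rw [h3, ← hA]
      change _ = ⟪g (-(conj (s : ℂ))), A (f (-(s : ℂ)))⟫_ℂ
      rw [conj_ofReal, ← Complex.ofReal_neg, hg.2, hf.2])
    have h4 := congrFun he (I / 4)
    rw [h4]
    change ⟪g (-(conj (I / 4))), A (f (-(I / 4)))⟫_ℂ = _
    have h5 : -(conj (I / 4)) = I / 4 := by
      rw [map_div₀, conj_I, map_ofNat, neg_div, neg_neg]
    rw [h5]
  have hA' : ∀ u y, ⟪u, A' y⟫_ℂ = mn V a u y (I / 4) := by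
    rw [← hFA]
    exact hF'
  have hA0 : ∀ u y, ⟪u, A' y⟫_ℂ = mn V a' u y 0 := by
    rw [← hBA]
    exact hB'
  refine ⟨hA', fun u y => ?_⟩
  -- step 3
  have hd : Differentiable ℂ fun z : ℂ => mn V a u y (z + I / 4) :=
    (mn_diff hge hV a u y).comp (differentiable_id.add (differentiable_const _))
  have he := entire_ext (mn_diff hge hV a' u y) hd (fun s => by
    have h3 := mn_shift hge hV a' u y s 0
    rw [zero_add] at h3
    rw [h3, add_comm (s : ℂ) (I / 4), mn_shift hge hV, ← hA0, ← hA'])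
  have h4 := congrFun he (-(I / 4))
  rw [hA]
  change mn V a u y 0 = mn V a' u y (-(I / 4))
  rw [h4, neg_add_cancel]

end Pool.Agent.MQG.H21
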