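import Pool.Agent.MQG.StmtsB

set_option autoImplicit false

/-!
# Squad MQG, row PRC: the coefficients of the product of two representations
-/

namespace Pool.Agent.MQG.H21

open scoped InnerProductSpace InnerProduct Topology
open Complex Filter

variable {α β γ κ κ' ι : Type}

theorem tl_f13 (x : L2 α) (y : L2 β) (z : L2 γ) : tl f13 (tn x z) y = tn (tn x y) z := by
  ext c
  simp [f13]
  ring

theorem tl_f23 (x : L2 α) (y : L2 β) (z : L2 γ) : tl f23 (tn y z) x = tn (tn x y) z := by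
  ext c
  simp [f23]
  ring

/-- the matrix elements of `U₁₃` against a vector of the legs 2, 3 -/
theorem inner_f13 (U : Op (κ × ι)) (x z : L2 κ) (x' : L2 κ') (u : L2 ι) (ζ : L2 (κ' × ι)) :
    ⟪tn (tn x x') u, leg f13 U (tl f23 ζ z)⟫_ℂ =
      ⟪u, co U x z (ContinuousLinearMap.adjoint (emb' (Equiv.refl (κ' × ι)) x') ζ)⟫_ℂ := by
  have h : (innerSL ℂ (tn (tn x x') u)) ∘L (leg f13 U) ∘L (emb f23 z) =
      (innerSL ℂ u) ∘L (co U x z) ∘L (ContinuousLinearMap.adjoint (emb' (Equiv.refl (κ' × ι)) x')) := by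
    refine ext_tn fun q g => ?_
    show ⟪tn (tn x x') u, leg f13 U (tl f23 (tn q g) z)⟫_ℂ =
      ⟪u, co U x z (ContinuousLinearMap.adjoint (emb' (Equiv.refl (κ' × ι)) x') (tl (Equiv.refl (κ' × ι)) q g))⟫_ℂ
    rw [adj_emb'_tl, tl_f23, ← tl_f13, ← tl_f13, leg_tl, inner_tl, map_smul, inner_smul_right,
      inner_co, mul_comm]
  exact DFunLike.congr_fun h ζ

theorem prc : PrcStmt := by
  intro ι κ κ' U U' x z x' z'
  refine ContinuousLinearMap.ext fun y => ext_inner_left ℂ fun u => ?_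
  rw [inner_co]
  show ⟪tn (tn x x') u, leg f13 U (leg f23 U' (tn (tn z z') y))⟫_ℂ = _
  rw [← tl_f23 z z' y, leg_tl, inner_f13]
  rfl

end Pool.Agent.MQG.H21
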